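import Pool.Agent.H.MP_a20134_al.Main

set_option autoImplicit false
open Matrix

namespace Pool.Agent.Results.MP_a20134_al.Q2

theorem result :
    ∃ A : Matrix (Fin 5) (Fin 5) ℝ,
      (∀ i j, ∃ q : ℚ, A i j = (q : ℝ)) ∧
      A.PosDef ∧
      (∀ i j, 0 < A i j) ∧
      (∀ ε : ℝ, 0 < ε → ∃ S : Matrix (Fin 5) (Fin 5) ℝ, Sᵀ = S ∧
          (∀ i j, |S i j - A i j| < ε) ∧
          ¬ ∃ m : ℕ, ∃ C : Matrix (Fin 5) (Fin m) ℝ, (∀ i j, 0 ≤ C i j) ∧ S = C * Cᵀ) ∧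
      ∃ B : Matrix (Fin 5) (Fin 5) ℝ, (∀ i j, 0 ≤ B i j) ∧ A = B * Bᵀ ∧
        (∃ i j, Irrational (B i j)) ∧ ∃ j i l, Irrational (B i j * B l j) := by
  open Pool.Agent.H.MP_a20134_al in
  refine ⟨A, A_rat, A_posDef, A_pos, A_bdry, B, B_nonneg, A_eq, ⟨1, 0, ?_⟩, 0, 0, 0, ?_⟩
  · simpa [Pool.Agent.H.MP_a20134_al.B] using Pool.Agent.H.MP_a20134_al.irr5
  · rintro ⟨r, hr⟩
    exact Pool.Agent.H.MP_a20134_al.B_irr ⟨r, hr.symm⟩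

end Pool.Agent.Results.MP_a20134_al.Q2
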